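import Pool.Agent.MP_dd175f_co.Tri.Final

set_option autoImplicit false

namespace Pool.Agent.Results.MP_dd175f_co.EightNinths

theorem result (c : ℝ) (hc : c < 8 / 9) :
    ∃ δ : ℝ, 0 < δ ∧ ∀ᶠ n : ℕ in Filter.atTop, ∀ ε : ℝ,
      (n : ℝ) ^ (-δ) ≤ ε → ε ≤ δ / Real.log n ^ 2 →
        c / ε ^ 2 * Real.log n ≤ Nb34004ea.F n (1 / 2 - ε) :=
  Pool.Agent.MP_dd175f_co.Tri.eight_ninths hc

end Pool.Agent.Results.MP_dd175f_co.EightNinths
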