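import Pool.Agent.MP_dd175f_co.Pair.Final

set_option autoImplicit false

namespace Pool.Agent.Results.MP_dd175f_co.FourNinths

theorem result (c : ℝ) (hc : c < 4 / 9) :
    ∃ ε₀ : ℝ, 0 < ε₀ ∧ ∀ ε : ℝ, 0 < ε → ε < ε₀ →
      ∀ᶠ n : ℕ in Filter.atTop, c / ε ^ 2 * Real.log n ≤ Nb34004ea.F n (1 / 2 - ε) :=
  Pool.Agent.MP_dd175f_co.Pair.four_ninths hc

end Pool.Agent.Results.MP_dd175f_co.FourNinths
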