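import Pool.Agent.Mg.Fdd175f.G4a771d

set_option autoImplicit false

namespace Pool.Agent.Results.MP_dd175f_co.LowerBound

theorem result (α c : ℝ) (h0 : 0 < α) (h1 : α < 1 / 2)
    (hc : c < 1 / (2 * Pool.Agent.MP_dd175f_co.rateI α)) :
    ∀ᶠ n : ℕ in Filter.atTop, c * Real.log n ≤ Nb34004ea.F n α :=
  Pool.Agent.MP_dd175f_co.lower h0 h1 hc

end Pool.Agent.Results.MP_dd175f_co.LowerBound
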